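import Pool.Agent.helper387_fk.GT3
import Pool.Agent.helper387_fk.GM2
import Pool.Agent.helper387_fk.GM4
import Pool.Agent.helper387_fk.GM5
import Pool.Agent.helper387_fk.GM6

/-!
The subalgebra `E_G` of the Fomin-Kirillov algebra is infinite-dimensional for every graph `G` which
contains one of six small graphs on six vertices.
-/

namespace Pool.Agent.Results.MP_d8ccee_al.SixGraphs

open H387FK

attribute [local irreducible] H387FK.instRing H387FK.instAlg

/-- Six graphs on six vertices: the star with five edges; the spider with three legs of length one and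
one leg of length two; the double star with two leaves at both ends of an edge; the four-cycle with one
pendant edge at each of two opposite vertices; the triangle with one pendant edge at each vertex; the
five-cycle with one pendant edge. -/
def M : Fin 6 → SimpleGraph (Fin 6) := ![
  SimpleGraph.fromEdgeSet {s(0, 1), s(0, 2), s(0, 3), s(0, 4), s(0, 5)},
  SimpleGraph.fromEdgeSet {s(0, 1), s(0, 2), s(0, 3), s(0, 4), s(4, 5)},
  SimpleGraph.fromEdgeSet {s(0, 1), s(0, 2), s(0, 3), s(1, 4), s(1, 5)},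
  SimpleGraph.fromEdgeSet {s(0, 1), s(1, 2), s(2, 3), s(3, 0), s(0, 4), s(2, 5)},
  SimpleGraph.fromEdgeSet {s(0, 1), s(1, 2), s(2, 0), s(0, 3), s(1, 4), s(2, 5)},
  SimpleGraph.fromEdgeSet {s(0, 1), s(1, 2), s(2, 3), s(3, 4), s(4, 0), s(0, 5)}]

/-- The relabellings of the points. -/
def f : Fin 6 → (Fin 6 ↪ Fin 6) := ![
  ⟨![1, 2, 3, 4, 5, 0], by decide⟩,
  ⟨![4, 3, 1, 2, 5, 0], by decide⟩,
  ⟨![1, 2, 4, 3, 5, 0], by decide⟩,
  ⟨![0, 1, 3, 5, 4, 2], by decide⟩,
  ⟨![0, 1, 5, 3, 4, 2], by decide⟩,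
  ⟨![4, 1, 5, 3, 2, 0], by decide⟩]

theorem case0 (n : ℕ) (G : SimpleGraph (Fin n)) (φ : (M 0).Copy G) :
    ¬ Module.Finite ℚ (EG G) := by
  refine not_finite_of_star G ((f 0).trans ⟨φ, φ.injective⟩) ?_
  intro k hk
  refine φ.toHom.map_adj (v := f 0 k) (w := f 0 5) ?_
  revert hk
  fin_cases k <;> simp [M, f]

theorem case1 (n : ℕ) (G : SimpleGraph (Fin n)) (φ : (M 1).Copy G) :
    ¬ Module.Finite ℚ (EG G) := by
  refine H387G.M2.good.not_finite G ((f 1).trans ⟨φ, φ.injective⟩) ?_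
  intro k
  refine φ.toHom.map_adj (v := f 1 (H387G.M2.D.v1 k)) (w := f 1 (H387G.M2.D.v2 k)) ?_
  cases k
  · show (M 1).Adj 1 0
    simp [M]
  · show (M 1).Adj 2 0
    simp [M]
  · show (M 1).Adj 3 0
    simp [M]
  · show (M 1).Adj 4 0
    simp [M]
  · show (M 1).Adj 4 5
    simp [M]
  · show (M 1).Adj 4 5
    simp [M]

theorem case2 (n : ℕ) (G : SimpleGraph (Fin n)) (φ : (M 2).Copy G) :
    ¬ Module.Finite ℚ (EG G) := by
  refine H387G.T3.good.not_finite G ((f 2).trans ⟨φ, φ.injective⟩) ?_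
  intro k
  refine φ.toHom.map_adj (v := f 2 (H387G.T3.D.v1 k)) (w := f 2 (H387G.T3.D.v2 k)) ?_
  cases k
  · show (M 2).Adj 2 0
    simp [M]
  · show (M 2).Adj 3 0
    simp [M]
  · show (M 2).Adj 1 0
    simp [M]
  · show (M 2).Adj 1 4
    simp [M]
  · show (M 2).Adj 1 5
    simp [M]
  · show (M 2).Adj 1 5
    simp [M]

theorem case3 (n : ℕ) (G : SimpleGraph (Fin n)) (φ : (M 3).Copy G) :
    ¬ Module.Finite ℚ (EG G) := by
  refine H387G.M4.good.not_finite G ((f 3).trans ⟨φ, φ.injective⟩) ?_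
  intro k
  refine φ.toHom.map_adj (v := f 3 (H387G.M4.D.v1 k)) (w := f 3 (H387G.M4.D.v2 k)) ?_
  cases k
  · show (M 3).Adj 0 4
    simp [M]
  · show (M 3).Adj 0 1
    simp [M]
  · show (M 3).Adj 5 2
    simp [M]
  · show (M 3).Adj 1 2
    simp [M]
  · show (M 3).Adj 3 2
    simp [M]
  · show (M 3).Adj 0 3
    simp [M]

theorem case4 (n : ℕ) (G : SimpleGraph (Fin n)) (φ : (M 4).Copy G) :
    ¬ Module.Finite ℚ (EG G) := by
  refine H387G.M5.good.not_finite G ((f 4).trans ⟨φ, φ.injective⟩) ?_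
  intro k
  refine φ.toHom.map_adj (v := f 4 (H387G.M5.D.v1 k)) (w := f 4 (H387G.M5.D.v2 k)) ?_
  cases k
  · show (M 4).Adj 1 2
    simp [M]
  · show (M 4).Adj 0 2
    simp [M]
  · show (M 4).Adj 0 1
    simp [M]
  · show (M 4).Adj 1 4
    simp [M]
  · show (M 4).Adj 5 2
    simp [M]
  · show (M 4).Adj 0 3
    simp [M]

theorem case5 (n : ℕ) (G : SimpleGraph (Fin n)) (φ : (M 5).Copy G) :
    ¬ Module.Finite ℚ (EG G) := by
  refine H387G.M6.good.not_finite G ((f 5).trans ⟨φ, φ.injective⟩) ?_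
  intro k
  refine φ.toHom.map_adj (v := f 5 (H387G.M6.D.v1 k)) (w := f 5 (H387G.M6.D.v2 k)) ?_
  cases k
  · show (M 5).Adj 1 2
    simp [M]
  · show (M 5).Adj 4 0
    simp [M]
  · show (M 5).Adj 3 2
    simp [M]
  · show (M 5).Adj 1 0
    simp [M]
  · show (M 5).Adj 4 3
    simp [M]
  · show (M 5).Adj 5 0
    simp [M]

/-- If a finite simple graph `G` has a subgraph isomorphic to one of the six graphs, then the subalgebra
of the Fomin-Kirillov algebra over `ℚ` generated by the edges of `G` is infinite-dimensional. -/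
theorem result (n : ℕ) (G : SimpleGraph (Fin n)) (i : Fin 6) (h : (M i).IsContained G) :
    ¬ Module.Finite ℚ (EG G) := by
  obtain ⟨φ⟩ := h
  fin_cases i
  · exact case0 n G φ
  · exact case1 n G φ
  · exact case2 n G φ
  · exact case3 n G φ
  · exact case4 n G φ
  · exact case5 n G φ

end Pool.Agent.Results.MP_d8ccee_al.SixGraphs
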